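import Pool.Agent.Y690.JP.Stm
import Pool.Agent.Y929.PP.Mom

/-!
# Project JP: the method of moments with weights, and the joint law
-/

set_option autoImplicit false

open Finset Filter Topology

namespace Pool.Agent.Y232.JP

open Pool.Agent.Y690.PP (al)
open Pool.Agent.Y690.JP (SMOMW SMOMJ)
open Pool.Agent.Y929.PP

theorem t_MOMW : SMOMW := by
  intro Ω F X v c hF hv hX hlim
  have hcard : ∀ n, (0 : ℝ) < #(F n) := fun n => by exact_mod_cast (hF n).card_pos
  -- convergence for all the polynomials
  have hpoly : ∀ f : Polynomial ℝ, Tendsto (fun n => (∑ ω ∈ F n, v n ω * f.eval (X n ω : ℝ)) / #(F n))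
      atTop (𝓝 (c * L f)) := by
    intro f
    induction f using Polynomial.induction_on' with
    | add p q hp hq =>
      rw [map_add, mul_add]
      refine (hp.add hq).congr fun n => ?_
      simp only [Polynomial.eval_add, mul_add, sum_add_distrib, add_div]
    | monomial k a =>
      rw [L_mon]
      have h1 := (hlim k).const_mul a
      have h2 : a * (c * ∏ i ∈ range k, ((2 : ℝ) ^ i + 1)) = c * (cc k * a) := by
        unfold cc
        ring
      rw [h2] at h1
      refine h1.congr fun n => ?_
      simp only [Polynomial.eval_monomial]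
      rw [← mul_div_assoc, mul_sum]
      congr 1
      refine sum_congr rfl fun ω _ => ?_
      ring
  -- bounds
  have hup : ∀ m, Even m → ∀ n, (∑ ω ∈ F n, if X n ω = 1 then v n ω else 0) / #(F n) ≤
      (∑ ω ∈ F n, v n ω * (S m).eval (X n ω : ℝ)) / #(F n) := by
    intro m hm n
    refine div_le_div_of_nonneg_right (sum_le_sum fun ω hω => ?_) (hcard n).le
    obtain ⟨j, hj⟩ := hX n ω hω
    rcases Nat.eq_zero_or_pos j with h0 | h0
    · rw [hj, h0]
      simp [S_one]
    · have h1 : X n ω ≠ 1 := by
        rw [hj]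
        exact (Nat.one_lt_two_pow (by omega)).ne'
      rw [if_neg h1, hj]
      have h2 := S_sign (m := m) h0
      rw [hm.neg_one_pow, one_mul] at h2
      push_cast
      exact mul_nonneg (hv n ω) h2
  have hlow : ∀ m, Odd m → ∀ n, (∑ ω ∈ F n, v n ω * (S m).eval (X n ω : ℝ)) / #(F n) ≤
      (∑ ω ∈ F n, if X n ω = 1 then v n ω else 0) / #(F n) := by
    intro m hm n
    refine div_le_div_of_nonneg_right (sum_le_sum fun ω hω => ?_) (hcard n).le
    obtain ⟨j, hj⟩ := hX n ω hω
    rcases Nat.eq_zero_or_pos j with h0 | h0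
    · rw [hj, h0]
      simp [S_one]
    · have h1 : X n ω ≠ 1 := by
        rw [hj]
        exact (Nat.one_lt_two_pow (by omega)).ne'
      rw [if_neg h1, hj]
      have h2 := S_sign (m := m) h0
      rw [hm.neg_one_pow] at h2
      push_cast
      have h3 := hv n ω
      nlinarith
  have hs := s_lim.const_mul c
  rw [tendsto_order] at hs ⊢
  constructor
  · intro a ha
    obtain ⟨m0, hm0⟩ := eventually_atTop.1 (hs.1 a ha)
    have h1 := hm0 (2 * m0 + 1) (by omega)
    rw [← L_S] at h1
    have h2 := (tendsto_order.1 (hpoly (S (2 * m0 + 1)))).1 a h1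
    filter_upwards [h2] with n hn
    exact hn.trans_le (hlow _ (by simp) n)
  · intro a ha
    obtain ⟨m0, hm0⟩ := eventually_atTop.1 (hs.2 a ha)
    have h1 := hm0 (2 * m0) (by omega)
    rw [← L_S] at h1
    have h2 := (tendsto_order.1 (hpoly (S (2 * m0)))).2 a h1
    filter_upwards [h2] with n hn
    exact (hup _ (by simp) n).trans_lt hn

theorem t_MOMJ : SMOMJ := by
  classical
  intro T _ Ω F X hF hX hlim
  have key : ∀ U : Finset T, ∀ k : T → ℕ, Tendsto (fun n => (∑ ω ∈ F n,
      (∏ j ∈ U, if X j n ω = 1 then (1 : ℝ) else 0) * ∏ j ∈ Uᶜ, (X j n ω : ℝ) ^ k j) / #(F n))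
      atTop (𝓝 (al ^ #U * ∏ j ∈ Uᶜ, cc (k j))) := by
    intro U
    induction U using Finset.induction_on with
    | empty =>
      intro k
      have h1 := hlim k
      simp only [prod_empty, card_empty, pow_zero, one_mul, compl_empty]
      exact h1
    | insert j0 U hj0 ih =>
      intro k
      have hmem : j0 ∈ Uᶜ := by simpa using hj0
      have hW := t_MOMW Ω F (X j0) (fun n ω =>
        (∏ j ∈ U, if X j n ω = 1 then (1 : ℝ) else 0) * ∏ j ∈ (insert j0 U)ᶜ, (X j n ω : ℝ) ^ k j)
        (al ^ #U * ∏ j ∈ (insert j0 U)ᶜ, cc (k j)) hF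
        (fun n ω => mul_nonneg (prod_nonneg fun j _ => by split_ifs <;> norm_num)
          (prod_nonneg fun j _ => by positivity)) (hX j0) (by
        intro k'
        have h1 := ih (Function.update k j0 k')
        have h2 : ∏ j ∈ Uᶜ, cc (Function.update k j0 k' j) =
            cc k' * ∏ j ∈ (insert j0 U)ᶜ, cc (k j) := by
          rw [compl_insert, ← mul_prod_erase _ _ hmem, Function.update_self]
          congr 1
          refine prod_congr rfl fun j hj => ?_
          rw [Function.update_of_ne (ne_of_mem_erase hj)]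
        have h3 : al ^ #U * (∏ j ∈ (insert j0 U)ᶜ, cc (k j)) * ∏ i ∈ range k', ((2 : ℝ) ^ i + 1) =
            al ^ #U * ∏ j ∈ Uᶜ, cc (Function.update k j0 k' j) := by
          rw [h2]
          unfold cc
          ring
        rw [h3]
        refine h1.congr fun n => ?_
        congr 1
        refine sum_congr rfl fun ω _ => ?_
        have h4 : ∏ j ∈ Uᶜ, (X j n ω : ℝ) ^ (Function.update k j0 k' j) =
            (X j0 n ω : ℝ) ^ k' * ∏ j ∈ (insert j0 U)ᶜ, (X j n ω : ℝ) ^ k j := by
          rw [compl_insert, ← mul_prod_erase _ _ hmem, Function.update_self]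
          congr 1
          refine prod_congr rfl fun j hj => ?_
          rw [Function.update_of_ne (ne_of_mem_erase hj)]
        rw [h4]
        ring)
      have h5 : al ^ #(insert j0 U) * ∏ j ∈ (insert j0 U)ᶜ, cc (k j) =
          al ^ #U * (∏ j ∈ (insert j0 U)ᶜ, cc (k j)) * al := by
        rw [card_insert_of_notMem hj0, pow_succ]
        ring
      rw [h5]
      refine hW.congr fun n => ?_
      congr 1
      refine sum_congr rfl fun ω _ => ?_
      rw [prod_insert hj0]
      split_ifs
      · rw [one_mul]
      · rw [zero_mul, zero_mul]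
  have h1 := key univ (fun _ => 0)
  simp only [compl_univ, prod_empty, mul_one, card_univ] at h1
  refine h1.congr fun n => ?_
  congr 1
  rw [← sum_boole]
  refine sum_congr rfl fun ω _ => ?_
  rw [prod_boole]
  simp

end Pool.Agent.Y232.JP
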